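import Pool.Agent.H18.KO.Comp

/-!
# MP_de230a_lc, formalisation (b): instances of Keisler's order that no sound effective theory decides
-/

set_option autoImplicit false

open FirstOrder Cardinal

namespace Pool.Agent.Results.MP_de230a_lc.NotDecided

open Pool.Agent.H18.KO

/-- `T b` (`b : ℕ → Bool`) is the complete theory of `ℕ` with binary relations `R k`: `R k` is empty if `b k` is
false and the equivalence relation with the classes `{0, 1}`, `[2 ^ n, 2 ^ (n + 1))` if `b k` is true. -/
theorem result :
    -- the language is countable, the theories are complete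
    Lg.card ≤ ℵ₀ ∧ (∀ b : ℕ → Bool, (T b).IsComplete) ∧
    -- whether a sentence belongs to `T b` depends on finitely many values of `b`
    (∀ σ : Lg.Sentence, ∃ k : ℕ, ∀ b b' : ℕ → Bool, (∀ j < k, b j = b' j) → (σ ∈ T b ↔ σ ∈ T b')) ∧
    -- the place of `T b` in Keisler's order
    (∀ b : ℕ → Bool, KeislerLE T₀ (T b) ∧ (KeislerLE (T b) T₀ ↔ ∀ k, b k = false)) ∧
    -- a computable sequence of such theories, no effective sound theory proves all true instances
    (∃ β : ℕ → ℕ → Bool, Computable₂ β ∧
      ∀ P : ℕ → Prop, REPred P → (∀ e, P e → KeislerLE (T (β e)) T₀) →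
        ∃ e, KeislerLE (T (β e)) T₀ ∧ ¬ P e) ∧
    -- every proposition is equivalent to an instance of Keisler's order
    (∀ φ : Prop, ∃ b : ℕ → Bool, (∀ j k, b j = b k) ∧ (KeislerLE (T b) T₀ ↔ φ)) := by
  classical
  refine ⟨card_Lg, complete_T, use_T, fun b => ⟨?_, keisler_iff b⟩,
    ⟨bits, bits_computable, undecided⟩, fun φ => ?_⟩
  · intro I _ D hD _
    exact saturates_T0 hD
  · refine ⟨fun _ => decide ¬ φ, fun _ _ => rfl, ?_⟩
    rw [keisler_iff]
    constructor
    · intro h
      have := h 0
      simpa using this
    · intro h k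
      simpa using h

end Pool.Agent.Results.MP_de230a_lc.NotDecided
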